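import Pool.Agent.Y499.HC.FinalR
import Pool.Agent.Y502.HC.Frame
import Pool.Agent.Y888.HC.Det
import Pool.Agent.Y331.HC.Pos
import Pool.Agent.Y64.HC.Ptw
import Pool.Agent.Y454.HC.Avge
import Pool.Agent.Y908.HC.Inv2

/-! # Nonshortcutting fillings of round spheres: the volume of the boundary collar

Let `d ≥ 2` and `0 < R ≤ π/2`. On the collar `[0, R) × S^d` of the boundary of a nonshortcutting
filling, with the metric `a ds² + 2 β ds + g_s`, `a ≤ 1`, the integral of the slice energies
`(tr g_s / d)^(d/2)` is at least the volume of the collar of width `R` of the boundary of the round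
hemisphere, with equality only for the round metric. Consequently the same holds for the volume if
`s` is the distance from the boundary and the slices are conformal to the round sphere, and with the
loss of a factor `K` if the slices are `K`-quasiconformal to it. Only curves in the collar which join
antipodal boundary points are used. -/

set_option autoImplicit false

open Real Set MeasureTheory Metric
open scoped ENNReal

namespace Pool.Agent.Results.MP_aeade1_gt.CollarVolume

open Pool.Agent.Y499.HC Pool.Agent.Y499.HR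

theorem result (d : ℕ) (hd : 2 ≤ d) (R : ℝ) (hR0 : 0 < R) (hR : R ≤ π / 2) (m : Met d)
    (hm : Good R m) (hS : NonShort R m) :
    (hemiCollar d R ≤ energy R m ∧ (energy R m = hemiCollar d R ↔ IsRound R m)) ∧
    (Fermi R m → ∀ K : ℝ, 0 ≤ K →
      (∀ s ∈ Ioo 0 R, ∀ x : sphere (0 : EuclideanSpace ℝ (Fin (d + 1))) 1,
        (trTan (m.g s x) x / d) ^ ((d : ℝ) / 2) ≤ K * √(detTan (m.g s x) x)) →
      hemiCollar d R ≤ ENNReal.ofReal K * vol R m) ∧
    (Fermi R m → ∀ k : ℝ → EuclideanSpace ℝ (Fin (d + 1)) → ℝ,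
      (∀ s ∈ Ioo 0 R, ∀ x ∈ sphere (0 : EuclideanSpace ℝ (Fin (d + 1))) 1,
        ∀ v : EuclideanSpace ℝ (Fin (d + 1)), inner ℝ x v = 0 →
          quad (m.g s x) v = k s x ^ 2 * ‖v‖ ^ 2) →
      hemiCollar d R ≤ vol R m ∧ (vol R m = hemiCollar d R ↔ IsRound R m)) := by
  have hF := Pool.Agent.Y502.HC.t_FRAME
  have hP := Pool.Agent.Y64.HC.t_PTW
  have hA := Pool.Agent.Y454.HC.t_AVGE
  have hI := Pool.Agent.Y908.HC.t_INV2
  have hO := Pool.Agent.Y331.HC.t_POS
  have hD := Pool.Agent.Y888.HC.t_DET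
  have h1 : hemiCollar d R ≤ energy R m := energy_geR hF hP hA hI hd hR0 hR hm hS
  have h2 : energy R m = hemiCollar d R ↔ IsRound R m :=
    ⟨isRound_of_energy hF hP hA hI hO hd hR0 hR hm hS, energy_of_isRound hD hd hR0 hR hm⟩
  refine ⟨⟨h1, h2⟩, fun _ K hK hq => vol_ge_qcR hF hP hA hI hd hR0 hR hm hS hK hq,
    fun _ k hk => ?_⟩
  rw [vol_eq_energy hD hd hm hk]
  exact ⟨h1, h2⟩

end Pool.Agent.Results.MP_aeade1_gt.CollarVolume
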