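import Pool.Agent.Y499.HC.Conf3
import Pool.Agent.Y502.HC.Frame
import Pool.Agent.Y888.HC.Det
import Pool.Agent.Y331.HC.Pos
import Pool.Agent.Y454.HC.Avge
import Pool.Agent.Y908.HC.Inv2

/-! # Nonshortcutting fillings of round spheres: conformal and quasiconformal boundary collars

Let `d ≥ 2` and `0 < R ≤ π/2`. Consider a metric on the collar `[0, R) × S^d` for which every curve
joining two antipodal points of the boundary sphere `s = 0` has length at least `π`. If the metric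
is conformal to the round metric `ds² + cos² s g_round` of the collar of width `R` of the boundary
of the hemisphere, then its volume is at least the volume of the round collar, with equality only
for the round metric; if it is only `K`-quasiconformal to it, then a factor `K` is lost. -/

set_option autoImplicit false

open Real Set MeasureTheory Metric
open scoped ENNReal

namespace Pool.Agent.Results.MP_aeade1_gt.ConformalCollar

open Pool.Agent.Y499.HC Pool.Agent.Y499.HR Pool.Agent.Y499.HK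

theorem result (d : ℕ) (hd : 2 ≤ d) (R : ℝ) (hR0 : 0 < R) (hR : R ≤ π / 2) (m : Met d)
    (hS : NonShort R m) :
    (∀ φ : ℝ → EuclideanSpace ℝ (Fin (d + 1)) → ℝ, Conformal R m φ →
      hemiCollar d R ≤ volM R m ∧ (volM R m = hemiCollar d R ↔ IsRound R m)) ∧
    (∀ Λ : ℝ → EuclideanSpace ℝ (Fin (d + 1)) → ℝ, Dom R m Λ →
      (hemiCollar d R ≤ ∫⁻ s in Ioo 0 R,
        ∫⁻ x : sphere (0 : EuclideanSpace ℝ (Fin (d + 1))) 1,
          ENNReal.ofReal (Λ s x ^ (d + 1) * Real.cos s ^ d) ∂(σ d)) ∧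
      ((∫⁻ s in Ioo 0 R, ∫⁻ x : sphere (0 : EuclideanSpace ℝ (Fin (d + 1))) 1,
          ENNReal.ofReal (Λ s x ^ (d + 1) * Real.cos s ^ d) ∂(σ d)) = hemiCollar d R →
        ∀ s ∈ Ico 0 R, ∀ x ∈ sphere (0 : EuclideanSpace ℝ (Fin (d + 1))) 1, Λ s x = 1) ∧
      ∀ K : ℝ, 0 ≤ K →
        (∀ s ∈ Ioo 0 R, ∀ x : sphere (0 : EuclideanSpace ℝ (Fin (d + 1))) 1,
          Λ s x ^ (d + 1) * Real.cos s ^ d ≤ K * √(detM m s x)) →
        hemiCollar d R ≤ ENNReal.ofReal K * volM R m) := by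
  have hF := Pool.Agent.Y502.HC.t_FRAME
  have hA := Pool.Agent.Y454.HC.t_AVGE
  have hI := Pool.Agent.Y908.HC.t_INV2
  have hO := Pool.Agent.Y331.HC.t_POS
  have hD := Pool.Agent.Y888.HC.t_DET
  have hd1 : 1 ≤ d := by omega
  exact ⟨fun φ hφ => ⟨conf_ge hF hA hI hD hd1 hR0 hR hS hφ,
    conf_eq hF hA hI hO hD hd1 hR0 hR hS hφ⟩, fun Λ hΛ =>
    ⟨lam_ge hF hA hI hd1 hR0 hR hS hΛ, lam_eq hF hA hI hO hd1 hR0 hR hS hΛ,
      fun K hK hq => qc_ge hF hA hI hd1 hR0 hR hS hΛ hK hq⟩⟩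

end Pool.Agent.Results.MP_aeade1_gt.ConformalCollar
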